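import Pool.Agent.helper20.VVO.Spec

/-!
# MP_069684, project VVO, row AVG (averages over the sets of size `r`, telescoping)
-/

set_option autoImplicit false

open Filter Topology

namespace Pool.Agent.VVO

open Pool.Agent.PB Pool.Agent.ISO Pool.Agent.ISA

theorem AVG_dc {k : ℕ} (G : Finset (Fin k) → ℝ) (q : ℕ) :
    ∑ S ∈ (Finset.univ : Finset (Fin k)).powersetCard (q + 1), ∑ i ∈ S, G (S.erase i) =
      ((k : ℝ) - q) * ∑ S ∈ (Finset.univ : Finset (Fin k)).powersetCard q, G S := by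
  have h1 : ∑ S ∈ (Finset.univ : Finset (Fin k)).powersetCard (q + 1), ∑ i ∈ S, G (S.erase i) =
      ∑ S ∈ (Finset.univ : Finset (Fin k)).powersetCard q, ∑ i ∈ Sᶜ, G S := by
    rw [Finset.sum_sigma', Finset.sum_sigma']
    refine Finset.sum_bij' (fun x _ => ⟨x.1.erase x.2, x.2⟩) (fun x _ => ⟨insert x.2 x.1, x.2⟩) ?_ ?_ ?_ ?_ ?_
    · rintro ⟨S, i⟩ h
      simp only [Finset.mem_sigma, Finset.mem_powersetCard, Finset.subset_univ, true_and, Finset.mem_compl] at h ⊢
      refine ⟨?_, Finset.notMem_erase i S⟩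
      rw [Finset.card_erase_of_mem h.2, h.1]
      rfl
    · rintro ⟨S, i⟩ h
      simp only [Finset.mem_sigma, Finset.mem_powersetCard, Finset.subset_univ, true_and, Finset.mem_compl] at h ⊢
      refine ⟨?_, Finset.mem_insert_self i S⟩
      rw [Finset.card_insert_of_notMem h.2, h.1]
    · rintro ⟨S, i⟩ h
      simp only [Finset.mem_sigma, Finset.mem_powersetCard, Finset.subset_univ, true_and] at h
      simp only [Finset.insert_erase h.2]
    · rintro ⟨S, i⟩ h
      simp only [Finset.mem_sigma, Finset.mem_powersetCard, Finset.subset_univ, true_and, Finset.mem_compl] at h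
      simp only [Finset.erase_insert h.2]
    · rintro ⟨S, i⟩ _
      rfl
  rw [h1, Finset.mul_sum]
  refine Finset.sum_congr rfl fun S hS => ?_
  rw [Finset.mem_powersetCard] at hS
  rw [Finset.sum_const, nsmul_eq_mul, Finset.card_compl, Fintype.card_fin, hS.2]
  have h2 : q ≤ k := by
    have := Finset.card_le_univ S
    rw [hS.2, Fintype.card_fin] at this
    exact this
  rw [Nat.cast_sub h2]

/-- the averages -/
noncomputable def AVG_g {k : ℕ} (G : Finset (Fin k) → ℝ) (r : ℕ) : ℝ :=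
  (∑ S ∈ (Finset.univ : Finset (Fin k)).powersetCard r, G S) / (k.choose r : ℝ)

theorem AVG_step {k l : ℕ} (U G : Finset (Fin k) → ℝ) (η : ℝ)
    (h : ∀ S : Finset (Fin k), (l : ℝ) * U S ≤ ∑ i ∈ S, (G S - G (S.erase i)) + S.card * η) (q : ℕ) (hq : q + 1 ≤ k) :
    ((l : ℝ) / ((q + 1 : ℕ) : ℝ)) * AVG_g U (q + 1) ≤ AVG_g G (q + 1) - AVG_g G q + η := by
  have hc1 : (0 : ℝ) < (k.choose (q + 1) : ℝ) := by exact_mod_cast Nat.choose_pos hq
  have hc0 : (0 : ℝ) < (k.choose q : ℝ) := by exact_mod_cast Nat.choose_pos (by omega)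
  have hq0 : (0 : ℝ) < ((q + 1 : ℕ) : ℝ) := by exact_mod_cast Nat.succ_pos q
  have h1 : (l : ℝ) * ∑ S ∈ (Finset.univ : Finset (Fin k)).powersetCard (q + 1), U S ≤
      ((q + 1 : ℕ) : ℝ) * (∑ S ∈ (Finset.univ : Finset (Fin k)).powersetCard (q + 1), G S) -
        ((k : ℝ) - q) * (∑ S ∈ (Finset.univ : Finset (Fin k)).powersetCard q, G S) +
        (k.choose (q + 1) : ℝ) * (((q + 1 : ℕ) : ℝ) * η) := by
    rw [← AVG_dc G q, Finset.mul_sum, Finset.mul_sum, ← Finset.sum_sub_distrib]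
    have h2 : (k.choose (q + 1) : ℝ) * (((q + 1 : ℕ) : ℝ) * η) =
        ∑ S ∈ (Finset.univ : Finset (Fin k)).powersetCard (q + 1), (((q + 1 : ℕ) : ℝ) * η) := by
      rw [Finset.sum_const, Finset.card_powersetCard, Finset.card_univ, Fintype.card_fin, nsmul_eq_mul]
    rw [h2, ← Finset.sum_add_distrib]
    refine Finset.sum_le_sum fun S hS => ?_
    rw [Finset.mem_powersetCard] at hS
    have h3 := h S
    rw [Finset.sum_sub_distrib, Finset.sum_const, nsmul_eq_mul, hS.2] at h3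
    exact h3
  have h2 : (k.choose (q + 1) : ℝ) * ((q + 1 : ℕ) : ℝ) = (k.choose q : ℝ) * ((k : ℝ) - q) := by
    have h3 := Nat.choose_succ_right_eq k q
    have h4 : ((k.choose (q + 1) * (q + 1) : ℕ) : ℝ) = ((k.choose q * (k - q) : ℕ) : ℝ) := by rw [h3]
    rw [Nat.cast_mul, Nat.cast_mul, Nat.cast_sub (by omega : q ≤ k)] at h4
    exact h4
  unfold AVG_g
  set sU := ∑ S ∈ (Finset.univ : Finset (Fin k)).powersetCard (q + 1), U S
  set s1 := ∑ S ∈ (Finset.univ : Finset (Fin k)).powersetCard (q + 1), G S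
  set s0 := ∑ S ∈ (Finset.univ : Finset (Fin k)).powersetCard q, G S
  set c1 : ℝ := (k.choose (q + 1) : ℝ)
  set c0 : ℝ := (k.choose q : ℝ)
  set r : ℝ := ((q + 1 : ℕ) : ℝ)
  have h5 : (l : ℝ) / r * (sU / c1) = (l * sU) / (r * c1) := by rw [div_mul_div_comm]
  have h6 : s1 / c1 - s0 / c0 + η = (r * s1 - ((k : ℝ) - q) * s0 + c1 * (r * η)) / (r * c1) := by
    have h7 : s0 / c0 = (((k : ℝ) - q) * s0) / (r * c1) := by
      rw [div_eq_div_iff hc0.ne' (by positivity)]
      linear_combination s0 * h2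
    rw [h7]
    field_simp
  rw [h5, h6]
  exact div_le_div_of_nonneg_right h1 (by positivity)

theorem AVG_tel {k l : ℕ} (U G : Finset (Fin k) → ℝ) (η : ℝ) (hl : 1 ≤ l)
    (h : ∀ S : Finset (Fin k), (l : ℝ) * U S ≤ ∑ i ∈ S, (G S - G (S.erase i)) + S.card * η) (n : ℕ) (hn : l + n ≤ k) :
    ∑ r ∈ Finset.Icc l (l + n), ((l : ℝ) / r) * AVG_g U r ≤ AVG_g G (l + n) - AVG_g G (l - 1) + ((n : ℝ) + 1) * η := by
  induction n with
  | zero =>
    have h1 := AVG_step (l := l) U G η h (l - 1) (by omega)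
    have h2 : l - 1 + 1 = l := by omega
    rw [h2] at h1
    simpa using h1
  | succ n ih =>
    have h1 := AVG_step (l := l) U G η h (l + n) (by omega)
    have h2 := ih (by omega)
    rw [← add_assoc, Finset.sum_Icc_succ_top (by omega)]
    push_cast at h1 ⊢
    linarith

theorem AVG : AVG_stmt := by
  intro k l U G H η hl hlk hη hG h
  obtain ⟨n, rfl⟩ := Nat.exists_eq_add_of_le hlk
  have h1 := AVG_tel (l := l) U G η hl h n le_rfl
  have h2 : 0 ≤ AVG_g G (l - 1) := div_nonneg (Finset.sum_nonneg fun S _ => (hG S).1) (Nat.cast_nonneg _)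
  have h3 : AVG_g G (l + n) ≤ H := by
    have hc : (0 : ℝ) < ((l + n).choose (l + n) : ℝ) := by exact_mod_cast Nat.choose_pos le_rfl
    unfold AVG_g
    rw [div_le_iff₀ hc]
    refine (Finset.sum_le_card_nsmul _ _ H fun S _ => (hG S).2).trans (le_of_eq ?_)
    rw [Finset.card_powersetCard, Finset.card_univ, Fintype.card_fin, nsmul_eq_mul, mul_comm]
  have h4 : ((n : ℝ) + 1) * η ≤ ((l + n : ℕ) : ℝ) * η := by
    refine mul_le_mul_of_nonneg_right ?_ hη
    have : n + 1 ≤ l + n := by omega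
    exact_mod_cast this
  have h5 : ∑ r ∈ Finset.Icc l (l + n), ((l : ℝ) / r) * ((∑ S ∈ (Finset.univ : Finset (Fin (l + n))).powersetCard r, U S) / ((l + n).choose r : ℝ)) =
      ∑ r ∈ Finset.Icc l (l + n), ((l : ℝ) / r) * AVG_g U r := rfl
  rw [h5]
  linarith

end Pool.Agent.VVO
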