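import Pool.Agent.helper20.VVO.Spec

/-!
# MP_069684, project VVO, row CHB (Chebyshev for affine conditions)
-/

set_option autoImplicit false

open Filter Topology

namespace Pool.Agent.VVO

open Pool.Agent.PB Pool.Agent.ISO Pool.Agent.ISA

/-- the number of the functions with values in a given set -/
theorem CHB_pi {B : Type} [Fintype B] (t : ℕ) (Q : B → Prop) {i1 : DecidablePred Q} {i2 : DecidablePred fun a : Fin t → B => ∀ i, Q (a i)}
    (c : ℕ) (hc : (Finset.univ.filter Q).card = c) :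
    (Finset.univ.filter fun a : Fin t → B => ∀ i, Q (a i)).card = c ^ t := by
  classical
  have h1 : (Finset.univ.filter fun a : Fin t → B => ∀ i, Q (a i)) = Fintype.piFinset fun _ => Finset.univ.filter Q := by
    ext a
    simp
  rw [h1, Fintype.card_piFinset_const, hc]

open Classical in
theorem CHB_one (hIPC : ISO.IPC_stmt) (w t : ℕ) (y : Fin w → Bool) :
    (∑ a : Fin t → (Fin w → Bool) × Bool, if asat a y then (1 : ℝ) else 0) = ((2 : ℝ) ^ w) ^ t := by
  rw [Finset.sum_boole]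
  have h4 : (Finset.univ.filter fun a : Fin t → (Fin w → Bool) × Bool => asat a y).card = (2 ^ w) ^ t :=
    CHB_pi t (fun a : (Fin w → Bool) × Bool => ip a.1 y = a.2) (2 ^ w) (hIPC w y y).2.2
  rw [h4]
  push_cast
  ring

open Classical in
theorem CHB_two (hIPC : ISO.IPC_stmt) (w t : ℕ) (y y' : Fin w → Bool) (h : y ≠ y') :
    (∑ a : Fin t → (Fin w → Bool) × Bool, (if asat a y then (1 : ℝ) else 0) * (if asat a y' then (1 : ℝ) else 0)) =
      ((2 : ℝ) ^ w / 2) ^ t := by
  have h0 : ∀ a : Fin t → (Fin w → Bool) × Bool, (if asat a y then (1 : ℝ) else 0) * (if asat a y' then (1 : ℝ) else 0) =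
      if (∀ i, (ip (a i).1 y = (a i).2 ∧ ip (a i).1 y' = (a i).2)) then (1 : ℝ) else 0 := by
    intro a
    have e : (∀ i, (ip (a i).1 y = (a i).2 ∧ ip (a i).1 y' = (a i).2)) ↔ asat a y ∧ asat a y' := by
      unfold asat
      exact forall_and
    by_cases h1 : asat a y <;> by_cases h2 : asat a y' <;> simp [e, h1, h2]
  simp only [h0]
  rw [Finset.sum_boole]
  obtain ⟨c, hc⟩ : ∃ c, (Finset.univ.filter fun a : (Fin w → Bool) × Bool => ip a.1 y = a.2 ∧ ip a.1 y' = a.2).card = c := ⟨_, rfl⟩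
  have h3 : 2 * c = 2 ^ w := by
    rw [← hc]
    exact (hIPC w y y').2.1 h
  have h1 := fun i2 => CHB_pi (i2 := i2) t (fun a : (Fin w → Bool) × Bool => ip a.1 y = a.2 ∧ ip a.1 y' = a.2) c hc
  rw [h1]
  have h4 : (c : ℝ) = (2 : ℝ) ^ w / 2 := by
    have h5 : ((2 * c : ℕ) : ℝ) = ((2 ^ w : ℕ) : ℝ) := by rw [h3]
    push_cast at h5
    linarith
  push_cast
  rw [h4]

open Classical in
theorem CHB_card (w t : ℕ) (K : Finset (Fin w → Bool)) (a : Fin t → (Fin w → Bool) × Bool) :
    ((K.filter fun y => asat a y).card : ℝ) = ∑ y ∈ K, if asat a y then (1 : ℝ) else 0 := by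
  rw [Finset.sum_boole]

theorem CHB (hIPC : ISO.IPC_stmt) : CHB_stmt := by
  classical
  intro w t K
  set p1 : ℝ := ((2 : ℝ) ^ w) ^ t with hp1
  set p2 : ℝ := ((2 : ℝ) ^ w / 2) ^ t with hp2
  have hN : ((Fintype.card (Fin t → (Fin w → Bool) × Bool) : ℕ) : ℝ) = p1 * 2 ^ t := by
    rw [Fintype.card_fun, Fintype.card_fin, Fintype.card_prod, Fintype.card_fun, Fintype.card_bool, Fintype.card_fin]
    push_cast
    rw [hp1, mul_pow]
  have h12 : p2 * 2 ^ t = p1 := by
    rw [hp1, hp2, ← mul_pow]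
    congr 1
    ring
  have hs1 : ∑ a : Fin t → (Fin w → Bool) × Bool, ((K.filter fun y => asat a y).card : ℝ) = K.card * p1 := by
    simp only [CHB_card]
    rw [Finset.sum_comm]
    simp only [CHB_one hIPC w t]
    rw [Finset.sum_const, nsmul_eq_mul]
  have hs2 : ∑ a : Fin t → (Fin w → Bool) × Bool, ((K.filter fun y => asat a y).card : ℝ) ^ 2 =
      (K.card : ℝ) ^ 2 * p2 + K.card * (p1 - p2) := by
    have h1 : ∀ a : Fin t → (Fin w → Bool) × Bool, ((K.filter fun y => asat a y).card : ℝ) ^ 2 =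
        ∑ y ∈ K, ∑ y' ∈ K, (if asat a y then (1 : ℝ) else 0) * (if asat a y' then (1 : ℝ) else 0) := by
      intro a
      rw [CHB_card, pow_two, Finset.sum_mul_sum]
    simp only [h1]
    rw [Finset.sum_comm]
    have h2 : ∀ y ∈ K, ∑ a : Fin t → (Fin w → Bool) × Bool, ∑ y' ∈ K, (if asat a y then (1 : ℝ) else 0) * (if asat a y' then (1 : ℝ) else 0) =
        K.card * p2 + (p1 - p2) := by
      intro y hy
      rw [Finset.sum_comm]
      have h3 : ∀ y' ∈ K, ∑ a : Fin t → (Fin w → Bool) × Bool, (if asat a y then (1 : ℝ) else 0) * (if asat a y' then (1 : ℝ) else 0) =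
          p2 + if y = y' then p1 - p2 else 0 := by
        intro y' _
        by_cases h : y = y'
        · subst h
          rw [if_pos rfl, add_sub_cancel, hp1, ← CHB_one hIPC w t y]
          refine Finset.sum_congr rfl fun a _ => ?_
          by_cases h4 : asat a y <;> simp [h4]
        · rw [if_neg h, add_zero]
          exact CHB_two hIPC w t y y' h
      rw [Finset.sum_congr rfl h3, Finset.sum_add_distrib, Finset.sum_const, nsmul_eq_mul, Finset.sum_ite_eq, if_pos hy]
    rw [Finset.sum_congr rfl h2, Finset.sum_const, nsmul_eq_mul]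
    ring
  have h2t : (0 : ℝ) < 2 ^ t := by positivity
  have hp20 : 0 ≤ p2 := by positivity
  have h3 : ∑ a : Fin t → (Fin w → Bool) × Bool, (((K.filter fun y => asat a y).card : ℝ) - K.card / 2 ^ t) ^ 2 =
      ((K.card : ℝ) ^ 2 * p2 + K.card * (p1 - p2)) - 2 * (K.card / 2 ^ t) * (K.card * p1) + (p1 * 2 ^ t) * (K.card / 2 ^ t) ^ 2 := by
    rw [← hs1, ← hs2, ← hN]
    have h4 : ∀ a : Fin t → (Fin w → Bool) × Bool, (((K.filter fun y => asat a y).card : ℝ) - K.card / 2 ^ t) ^ 2 =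
        ((K.filter fun y => asat a y).card : ℝ) ^ 2 - 2 * (K.card / 2 ^ t) * ((K.filter fun y => asat a y).card : ℝ) + (K.card / 2 ^ t) ^ 2 := by
      intro a
      ring
    simp only [h4]
    rw [Finset.sum_add_distrib, Finset.sum_sub_distrib, ← Finset.mul_sum, Finset.sum_const, nsmul_eq_mul, Finset.card_univ]
  have goal : ∑ a : Fin t → (Fin w → Bool) × Bool, (((K.filter fun y => asat a y).card : ℝ) - K.card / 2 ^ t) ^ 2 ≤
      (K.card / 2 ^ t : ℝ) * Fintype.card (Fin t → (Fin w → Bool) × Bool) := by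
    rw [h3, hN, ← h12]
    have h5 : (K.card : ℝ) ^ 2 * p2 + K.card * (p2 * 2 ^ t - p2) - 2 * (K.card / 2 ^ t) * (K.card * (p2 * 2 ^ t)) +
        (p2 * 2 ^ t * 2 ^ t) * (K.card / 2 ^ t) ^ 2 = K.card * p2 * 2 ^ t - K.card * p2 := by
      field_simp
      ring
    have h6 : (K.card / 2 ^ t : ℝ) * (p2 * 2 ^ t * 2 ^ t) = K.card * p2 * 2 ^ t := by
      field_simp
    rw [h5, h6]
    have : 0 ≤ (K.card : ℝ) * p2 := by positivity
    linarith
  refine le_trans (le_of_eq ?_) goal
  refine Finset.sum_congr rfl fun a _ => ?_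
  congr 3

end Pool.Agent.VVO
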