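import Pool.Agent.helper20.VVO.Spec

/-!
# MP_069684, project VVO, row GIN (the integral over the densities)
-/

set_option autoImplicit false

open Filter Topology

namespace Pool.Agent.VVO

open Pool.Agent.PB Pool.Agent.ISO Pool.Agent.ISA

theorem GIN_gen (f : ℝ → ℝ) (s : Set ℝ) (hs : MeasurableSet s) (a : ℝ) (ha1 : a ≤ 1) (hf : ContinuousOn f (Set.Icc a 1))
    (hf0 : ∀ x ∈ Set.Ioc a 1, 0 ≤ f x) (c d : ℝ) (hac : a ≤ c) (hcd : c ≤ d) (hd1 : d ≤ 1) (hsub : Set.Icc c d ⊆ s) :
    IntervalIntegrable (s.indicator f) MeasureTheory.volume a 1 ∧ ∫ x in c..d, f x ≤ ∫ x in a..1, s.indicator f x := by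
  have h1 : IntervalIntegrable f MeasureTheory.volume a 1 := hf.intervalIntegrable_of_Icc ha1
  have h2 : IntervalIntegrable (s.indicator f) MeasureTheory.volume a 1 := by
    rw [intervalIntegrable_iff_integrableOn_Ioc_of_le ha1] at h1 ⊢
    exact h1.indicator hs
  refine ⟨h2, ?_⟩
  have h3 : ∫ x in c..d, f x = ∫ x in c..d, s.indicator f x := by
    refine intervalIntegral.integral_congr fun x hx => ?_
    rw [Set.uIcc_of_le hcd] at hx
    exact (Set.indicator_of_mem (hsub hx) f).symm
  rw [h3]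
  refine intervalIntegral.integral_mono_interval hac hcd hd1 ?_ h2
  refine (MeasureTheory.ae_restrict_iff' measurableSet_Ioc).2 (Eventually.of_forall fun x hx => ?_)
  show (0 : ℝ) ≤ s.indicator f x
  by_cases hxs : x ∈ s
  · rw [Set.indicator_of_mem hxs]
    exact hf0 x hx
  · rw [Set.indicator_of_notMem hxs]

theorem GIN_bin0 (j κ : ℕ) (x : ℝ) (h0 : 0 ≤ x) (h1 : x ≤ 1) : 0 ≤ bin j κ x := by
  unfold bin
  refine Finset.sum_nonneg fun r _ => ?_
  have : 0 ≤ 1 - x := by linarith
  positivity

theorem GIN_pois0 (j : ℕ) (x : ℝ) (h0 : 0 ≤ x) : 0 ≤ pois j x := by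
  unfold pois
  refine Finset.sum_nonneg fun r _ => ?_
  positivity

theorem GIN_binc (j κ : ℕ) : Continuous (bin j κ) := by
  unfold bin
  fun_prop

theorem GIN_poisc (j : ℕ) : Continuous (pois j) := by
  unfold pois
  fun_prop

theorem GIN_har (j κ : ℕ) : (harmonic (min j κ) : ℝ) ≤ (harmonic j : ℝ) := by
  have h : harmonic (min j κ) ≤ harmonic j := by
    unfold harmonic
    refine Finset.sum_le_sum_of_subset_of_nonneg ?_ fun i _ _ => by positivity
    exact Finset.range_mono (min_le_left j κ)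
  exact_mod_cast h

theorem GIN (hBET : ISO.BET_stmt) : GIN_stmt := by
  intro δ b lo hi κ0 j κ m hδ hδ1 hb hb1 hlo hlo1 hhi hhiκ hκb hκ hκm hlob hpois
  have hκR : (1 : ℝ) ≤ κ := by exact_mod_cast hκ
  have hκ0R : (0 : ℝ) < κ := by linarith
  have hmR : (κ : ℝ) ≤ m := by exact_mod_cast hκm
  have hm0 : (0 : ℝ) < m := by linarith
  have ha : 0 < lo / m := by positivity
  have ha1 : lo / m ≤ 1 := hlob.trans hb1
  have h1δ : 0 ≤ 1 - δ := by linarith
  by_cases hc : κ ≤ κ0
  · have e : (fun d => GG δ b lo hi κ0 j κ d / d) = (Set.Ici b).indicator fun d => (1 - δ) * (bin j κ d / d) := by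
      funext d
      unfold GG
      rw [if_pos hc]
      by_cases hd : b ≤ d
      · rw [if_pos hd, Set.indicator_of_mem (by exact hd)]
        ring
      · rw [if_neg hd, Set.indicator_of_notMem (by exact hd), zero_div]
    rw [e]
    obtain ⟨h1, h2⟩ := GIN_gen (fun d => (1 - δ) * (bin j κ d / d)) (Set.Ici b) measurableSet_Ici (lo / m) ha1 (by
      refine continuousOn_const.mul ((GIN_binc j κ).continuousOn.div continuousOn_id fun x hx => ?_)
      exact (lt_of_lt_of_le ha hx.1).ne') (by
      intro x hx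
      have hx0 : 0 < x := lt_trans ha hx.1
      exact mul_nonneg h1δ (div_nonneg (GIN_bin0 j κ x hx0.le hx.2) hx0.le)) b 1 hlob hb1 le_rfl (fun x hx => hx.1)
    refine ⟨h1, le_trans ?_ h2⟩
    rw [intervalIntegral.integral_const_mul]
    refine mul_le_mul_of_nonneg_left ?_ h1δ
    have h3 := hBET κ j b hκ hb hb1
    have h4 : (κ : ℝ) * b ≤ κ0 * b := mul_le_mul_of_nonneg_right (by exact_mod_cast hc) hb.le
    linarith
  · have hκκ : (κ0 : ℝ) ≤ κ := by
      have : κ0 ≤ κ := by omega
      exact_mod_cast this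
    have e : (fun d => GG δ b lo hi κ0 j κ d / d) = {d : ℝ | lo ≤ κ * d ∧ κ * d ≤ hi}.indicator fun d => (1 - δ) * (pois j (κ * d) / d) := by
      funext d
      unfold GG
      rw [if_neg hc]
      by_cases hd : lo ≤ κ * d ∧ κ * d ≤ hi
      · rw [if_pos hd, Set.indicator_of_mem (by exact hd)]
        ring
      · rw [if_neg hd, Set.indicator_of_notMem (by exact hd), zero_div]
    rw [e]
    have hms : MeasurableSet {d : ℝ | lo ≤ κ * d ∧ κ * d ≤ hi} := by
      have hm1 : Measurable fun d : ℝ => (κ : ℝ) * d := measurable_const.mul measurable_id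
      exact (measurableSet_le measurable_const hm1).inter (measurableSet_le hm1 measurable_const)
    have hlk : lo / m ≤ lo / κ := div_le_div_of_nonneg_left hlo.le hκ0R hmR
    have hlh : lo / κ ≤ hi / κ := div_le_div_of_nonneg_right (by linarith) hκ0R.le
    have hhk : hi / κ ≤ 1 := by
      rw [div_le_one hκ0R]
      linarith
    obtain ⟨h1, h2⟩ := GIN_gen (fun d => (1 - δ) * (pois j (κ * d) / d)) {d : ℝ | lo ≤ κ * d ∧ κ * d ≤ hi} hms (lo / m) ha1 (by
      refine continuousOn_const.mul (((GIN_poisc j).comp (continuous_const.mul continuous_id)).continuousOn.div continuousOn_id fun x hx => ?_)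
      exact (lt_of_lt_of_le ha hx.1).ne') (by
      intro x hx
      have hx0 : 0 < x := lt_trans ha hx.1
      exact mul_nonneg h1δ (div_nonneg (GIN_pois0 j _ (by positivity)) hx0.le)) (lo / κ) (hi / κ) hlk hlh hhk (by
      intro x hx
      refine ⟨?_, ?_⟩
      · have := (div_le_iff₀ hκ0R).1 hx.1
        linarith
      · have := (le_div_iff₀ hκ0R).1 hx.2
        linarith)
    refine ⟨h1, le_trans ?_ h2⟩
    rw [intervalIntegral.integral_const_mul]
    refine mul_le_mul_of_nonneg_left ?_ h1δ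
    have h3 : ∫ d in (lo / κ)..(hi / κ), pois j (κ * d) / d = ∫ x in lo..hi, pois j x / x := by
      have h4 := intervalIntegral.mul_integral_comp_mul_left (a := lo / κ) (b := hi / κ) (f := fun x => pois j x / x) (κ : ℝ)
      rw [mul_div_cancel₀ _ hκ0R.ne', mul_div_cancel₀ _ hκ0R.ne'] at h4
      rw [← h4, ← intervalIntegral.integral_const_mul]
      refine intervalIntegral.integral_congr fun x hx => ?_
      show pois j (κ * x) / x = κ * (pois j (κ * x) / (κ * x))
      rw [mul_div_assoc', mul_div_mul_left _ _ hκ0R.ne']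
    rw [h3]
    have h5 := GIN_har j κ
    linarith

end Pool.Agent.VVO
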