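import Pool.Agent.helper20.VVO.Spec

/-!
# MP_069684, project VVO, row ONN (one length, nondeterministic circuits)
-/

set_option autoImplicit false

open Filter Topology

namespace Pool.Agent.VVO

open Pool.Agent.PB Pool.Agent.ISO Pool.Agent.ISA

theorem ONN_size (K n Q G : ℕ) (hG : 4 ≤ G) (hQ : n + G + 2 ≤ Q) (hK : K = 4 * n * G ^ 2 + 1) :
    K * (2 * Q ^ 10 + n + 1) + 10 * (K + 1) ^ 2 ≤ Q ^ 30 := by
  have hQ6 : 6 ≤ Q := by omega
  have hn : n ≤ Q := by omega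
  have hGQ : G ≤ Q := by omega
  have h1 : K ≤ Q ^ 5 := by
    have h2 : 4 * n * G ^ 2 ≤ 4 * Q * Q ^ 2 := Nat.mul_le_mul (Nat.mul_le_mul_left 4 hn) (Nat.pow_le_pow_left hGQ 2)
    have h3 : 4 * Q * Q ^ 2 = 4 * Q ^ 3 := by ring
    have h4 : 36 * Q ^ 3 ≤ Q ^ 5 := by
      have : Q ^ 5 = Q ^ 2 * Q ^ 3 := by ring
      rw [this]
      exact Nat.mul_le_mul_right _ (by
        calc 36 = 6 ^ 2 := by norm_num
          _ ≤ Q ^ 2 := Nat.pow_le_pow_left hQ6 2)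
    have h5 : 1 ≤ Q ^ 3 := Nat.one_le_pow _ _ (by omega)
    omega
  have hQ10 : Q ≤ Q ^ 10 := by
    calc Q = Q ^ 1 := (pow_one Q).symm
      _ ≤ Q ^ 10 := Nat.pow_le_pow_right (by omega) (by omega)
  have h6 : 2 * Q ^ 10 + n + 1 ≤ 4 * Q ^ 10 := by omega
  have h7 : K * (2 * Q ^ 10 + n + 1) ≤ 4 * Q ^ 15 := by
    calc K * (2 * Q ^ 10 + n + 1) ≤ Q ^ 5 * (4 * Q ^ 10) := Nat.mul_le_mul h1 h6
      _ = 4 * Q ^ 15 := by ring
  have h8 : 1 ≤ Q ^ 5 := Nat.one_le_pow _ _ (by omega)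
  have h9 : 10 * (K + 1) ^ 2 ≤ 40 * Q ^ 10 := by
    calc 10 * (K + 1) ^ 2 ≤ 10 * (2 * Q ^ 5) ^ 2 := Nat.mul_le_mul_left 10 (Nat.pow_le_pow_left (by omega) 2)
      _ = 40 * Q ^ 10 := by ring
  have h10 : Q ^ 10 ≤ Q ^ 15 := Nat.pow_le_pow_right (by omega) (by omega)
  have h11 : 44 * Q ^ 15 ≤ Q ^ 30 := by
    have h12 : 44 ≤ Q ^ 15 := by
      calc 44 ≤ 6 ^ 15 := by norm_num
        _ ≤ Q ^ 15 := Nat.pow_le_pow_left hQ6 15
    calc 44 * Q ^ 15 ≤ Q ^ 15 * Q ^ 15 := Nat.mul_le_mul_right _ h12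
      _ = Q ^ 30 := by ring
  omega

theorem ONN_gam (n G : ℕ) (hG : 4 ≤ G) : 4 * ((n : ℝ) * Real.log 2) < (1 / (G : ℝ)) ^ 2 * ((4 * n * G ^ 2 + 1 : ℕ) : ℝ) := by
  have hG0 : (0 : ℝ) < G := by
    have : 0 < G := by omega
    exact_mod_cast this
  have h1 : (1 / (G : ℝ)) ^ 2 * ((4 * n * G ^ 2 + 1 : ℕ) : ℝ) = 4 * n + 1 / (G : ℝ) ^ 2 := by
    push_cast
    field_simp
  rw [h1]
  have h2 : Real.log 2 ≤ 1 := by
    have := Real.log_two_lt_d9
    linarith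
  have h3 : (n : ℝ) * Real.log 2 ≤ n * 1 := mul_le_mul_of_nonneg_left h2 (Nat.cast_nonneg n)
  have h4 : 0 < 1 / (G : ℝ) ^ 2 := by positivity
  linarith

open Classical in
theorem ONN_ind {q : ℕ} (P : Fin q → Prop) : ((Finset.univ.filter fun i => P i).card : ℝ) = ∑ t, ind (P t) := by
  unfold ind
  rw [Finset.sum_boole]

theorem ONN (hONE : ONE_stmt) (hTND : TND_stmt) (hNCL : NCL_stmt) (hCIR : ISO.CIR_stmt) : ONN_stmt := by
  classical
  intro n w N k l j m B G Q p f h hl hlk hch hG hP hnum hQ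
  obtain ⟨q, W, hq1, hqB, hWs, hWf, hWp⟩ := hP
  obtain ⟨K, hK⟩ : ∃ K, K = 4 * n * G ^ 2 + 1 := ⟨_, rfl⟩
  have hG0 : (0 : ℝ) < G := by
    have : 0 < G := by omega
    exact_mod_cast this
  have hG4 : (4 : ℝ) ≤ G := by exact_mod_cast hG
  obtain ⟨L, hL1, hL2, hL3⟩ := hONE n w N k l j m q K p (1 / G) f h W {F | NSize F (Q ^ 10)} hl hlk hch hq1 hWf
    (by
      intro x hx1 hx2
      rw [← ONN_ind]
      refine (hWp x hx1 hx2).trans (le_of_eq ?_)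
      congr 2)
    (by
      intro b
      exact hNCL.2.1 n 1 (Q ^ 10) _ (hNCL.1 n 1 _ (hCIR.2.1 n b)) (Nat.one_le_pow _ _ (by omega)))
    (by
      intro t S i X u a F _ ha hF
      exact hTND n w k N l a B Q (W t) S i X u F (hWs t) (by omega) hF)
    (by positivity)
    (by
      rw [div_le_div_iff₀ hG0 (by norm_num)]
      linarith)
    (by
      rw [hK]
      exact ONN_gam n G hG)
    (by
      refine lt_of_eq_of_lt ?_ hnum
      ring)
  refine ⟨fun x => decide (K < 2 * (Finset.univ.filter fun t => L t x = true).card), ?_, fun x hx => ?_, fun x hx => ?_⟩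
  · have h1 := hNCL.2.2.1 n (Q ^ 10) K (K / 2 + 1) L (fun x => decide (K < 2 * (Finset.univ.filter fun t => L t x = true).card)) hL1 (by
      intro x
      rw [decide_eq_true_iff]
      omega)
    exact hNCL.2.1 n _ _ _ h1 (ONN_size K n Q G hG (by omega) hK)
  · have h1 := hL2 x hx
    rw [decide_eq_false_iff_not]
    omega
  · have h1 := hL3 x hx
    rw [decide_eq_true_iff]
    exact h1

end Pool.Agent.VVO
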