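import Pool.Agent.helper20.VVO.Spec
import Pool.Agent.helper43.ISA.PUB

/-!
# MP_069684, project VVO, row DPB (all lengths, deterministic circuits)
-/

set_option autoImplicit false

open Filter Topology

namespace Pool.Agent.VVO

open Pool.Agent.PB Pool.Agent.ISO Pool.Agent.ISA

theorem DPB_har (j : ℕ) (hj : 1 ≤ j) : (0 : ℝ) < (harmonic j : ℝ) := by
  have : 0 < harmonic j := harmonic_pos (by omega)
  exact_mod_cast this

/-- the choice of the length -/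
theorem DPB_len (ρ cc : ℕ) (ε : ℝ) (hε : 0 < ε) : ∃ n1 : ℕ, ∀ n : ℕ, n1 ≤ n →
    (ρ : ℝ) * (cc * (2 * Real.log n)) ≤ n ∧ 8 / ε < n := by
  have h1 : ∀ᶠ x : ℝ in atTop, ‖Real.log x‖ ≤ (1 / (2 * ρ * cc + 1)) * ‖x‖ :=
    Real.isLittleO_log_id_atTop.def (by positivity)
  have h2 : ∀ᶠ n : ℕ in atTop, ‖Real.log (n : ℝ)‖ ≤ (1 / (2 * ρ * cc + 1)) * ‖(n : ℝ)‖ :=
    tendsto_natCast_atTop_atTop.eventually h1
  have h3 : ∀ᶠ n : ℕ in atTop, 8 / ε < (n : ℝ) := tendsto_natCast_atTop_atTop.eventually (eventually_gt_atTop (8 / ε))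
  obtain ⟨n1, hn1⟩ := eventually_atTop.1 (h2.and h3)
  refine ⟨n1, fun n hn => ⟨?_, (hn1 n hn).2⟩⟩
  have h4 := (hn1 n hn).1
  rw [Real.norm_eq_abs, Real.norm_eq_abs, abs_of_nonneg (Nat.cast_nonneg n : (0 : ℝ) ≤ n)] at h4
  have h5 : Real.log n ≤ (1 / (2 * ρ * cc + 1)) * (n : ℝ) := (le_abs_self _).trans h4
  have h6 : (0 : ℝ) ≤ 2 * ρ * cc := by positivity
  have h7 : (ρ : ℝ) * (cc * (2 * Real.log n)) = 2 * ρ * cc * Real.log n := by ring
  rw [h7]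
  have h8 : (0 : ℝ) ≤ n := Nat.cast_nonneg n
  calc 2 * (ρ : ℝ) * cc * Real.log n ≤ 2 * ρ * cc * ((1 / (2 * ρ * cc + 1)) * (n : ℝ)) :=
        mul_le_mul_of_nonneg_left h5 h6
    _ = (2 * ρ * cc / (2 * ρ * cc + 1)) * n := by ring
    _ ≤ 1 * n := by
        refine mul_le_mul_of_nonneg_right ?_ h8
        rw [div_le_one (by linarith)]
        linarith
    _ = n := one_mul _

theorem DPB_est (N w k l c c2 cc n B G M : ℕ) (hN : 2 ≤ N) (hc2 : c2 ≤ N) (hRM : k + k * w ≤ N ^ (c + 4)) (hn : n ≤ N)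
    (hB : B = N ^ c2 + c2) (hG : G = N) (hM : k.choose l ≤ M) (hM' : M ≤ N ^ cc) :
    B + N + (k + k * w) + k.choose l + n + G + 2 ≤ N ^ (c2 + c + cc + 7) := by
  have h1 : N ^ c2 + c2 ≤ N ^ (c2 + 2) := PUB_pow N c2 hN hc2
  have h2 : N ^ (c2 + 2) ≤ N ^ (c2 + c + cc + 4) := Nat.pow_le_pow_right (by omega) (by omega)
  have h3 : N ^ (c + 4) ≤ N ^ (c2 + c + cc + 4) := Nat.pow_le_pow_right (by omega) (by omega)
  have h4 : N ≤ N ^ (c2 + c + cc + 4) := by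
    calc N = N ^ 1 := (pow_one N).symm
      _ ≤ N ^ (c2 + c + cc + 4) := Nat.pow_le_pow_right (by omega) (by omega)
  have h6 : N ^ cc ≤ N ^ (c2 + c + cc + 4) := Nat.pow_le_pow_right (by omega) (by omega)
  have h5 : 8 * N ^ (c2 + c + cc + 4) ≤ N ^ (c2 + c + cc + 7) := by
    have : N ^ (c2 + c + cc + 7) = N ^ 3 * N ^ (c2 + c + cc + 4) := by ring
    rw [this]
    exact Nat.mul_le_mul_right _ (by
      calc 8 = 2 ^ 3 := by norm_num
        _ ≤ N ^ 3 := Nat.pow_le_pow_left hN _)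
  omega

theorem DPB_num (ε p L S H k n : ℝ) (hε : 0 < ε) (hε1 : ε ≤ 1) (hH : 0 < H) (hL : 0 < L) (h1 : (1 + ε) * H ≤ p * L)
    (h2 : (1 - ε / 4) * L ≤ S) (hn : 8 / ε < n) (hk0 : 0 ≤ k) (hk : k ≤ n) : H * (1 + 4 * k / (n * n)) < p * S := by
  have hn0 : 0 < n := lt_trans (by positivity) hn
  have hp : 0 < p := by
    by_contra h
    rw [not_lt] at h
    have : p * L ≤ 0 := mul_nonpos_of_nonpos_of_nonneg h hL.le
    nlinarith
  have h3 : p * ((1 - ε / 4) * L) ≤ p * S := mul_le_mul_of_nonneg_left h2 hp.le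
  have h4 : (1 - ε / 4) * ((1 + ε) * H) ≤ (1 - ε / 4) * (p * L) := mul_le_mul_of_nonneg_left h1 (by linarith)
  have h5 : 4 * k / (n * n) < ε / 2 := by
    rw [div_lt_iff₀ hε] at hn
    rw [div_lt_iff₀ (by positivity)]
    nlinarith
  have h6 : H * (1 + 4 * k / (n * n)) < H * (1 + ε / 2) := mul_lt_mul_of_pos_left (by linarith) hH
  have h7 : H * (1 + ε / 2) ≤ (1 - ε / 4) * ((1 + ε) * H) := by
    have h8 : 0 ≤ H * (ε * (1 - ε)) := mul_nonneg hH.le (mul_nonneg hε.le (by linarith))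
    nlinarith
  nlinarith

theorem DPB (hOND : OND_stmt) (hSVS : SVS_stmt) (hUNP : ISA.UNP_stmt) (hNUM : NUM_stmt) (hDNF : DNF_stmt) : DPB_stmt := by
  intro ε₀ j cc m M p hε₀ hj hMm hev₀ hAll c
  obtain ⟨ε, hε, hε1, hev⟩ : ∃ ε : ℝ, 0 < ε ∧ ε ≤ 1 ∧ ∀ᶠ n : ℕ in atTop, 2 ≤ M n ∧ M n ≤ n ^ cc ∧ (1 + ε) * (harmonic j : ℝ) ≤ p n * Real.log (M n) := by
    refine ⟨min ε₀ 1, lt_min hε₀ one_pos, min_le_right _ _, hev₀.mono fun n hn => ⟨hn.1, hn.2.1, le_trans ?_ hn.2.2⟩⟩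
    refine mul_le_mul_of_nonneg_right ?_ (DPB_har j hj).le
    have := min_le_left ε₀ 1
    linarith
  obtain ⟨ρ, hρ⟩ := hNUM (ε / 4) (by positivity)
  obtain ⟨c2, hc2⟩ := hUNP m (fun _ => Set.Icc 1 j) p hAll (8 * (c + 5))
  obtain ⟨N0, hN0⟩ := eventually_atTop.1 hev
  obtain ⟨n1, hn1⟩ := DPB_len ρ cc ε hε
  obtain ⟨S, hS⟩ := PUB_fin hDNF (N0 + c + c2 + 2 + n1)
  refine ⟨S + 60 * (c2 + c + cc + 7), fun n w f hw hf => ?_⟩
  by_cases hn : n < N0 + c + c2 + 2 + n1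
  · refine ⟨fun x => decide (wit f x = 1), PUB_mono (hS n hn _) ?_, fun x hx => ?_, fun x hx => ?_⟩
    · omega
    · simp [hx]
    · simp [hx]
  · have hn2 : 2 ≤ n := by omega
    have hnN : n ≤ n ^ 2 := by
      calc n = n ^ 1 := (pow_one n).symm
        _ ≤ n ^ 2 := Nat.pow_le_pow_right (by omega) (by omega)
    obtain ⟨hM2, hMc, hpM⟩ := hN0 (n ^ 2) (by omega)
    obtain ⟨k, l, hl1, hlk, hch, hkρ, hsum⟩ := hρ (M (n ^ 2)) hM2
    obtain ⟨hlen, h8⟩ := hn1 n (by omega)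
    have hnR : (0 : ℝ) < n := by
      have : 0 < n := by omega
      exact_mod_cast this
    have hMR : (1 : ℝ) < (M (n ^ 2) : ℝ) := by
      have : 1 < M (n ^ 2) := by omega
      exact_mod_cast this
    have hlog0 : 0 < Real.log (M (n ^ 2)) := Real.log_pos hMR
    have hlogM : Real.log (M (n ^ 2)) ≤ cc * (2 * Real.log n) := by
      have h1 : (M (n ^ 2) : ℝ) ≤ ((n : ℝ) ^ 2) ^ cc := by exact_mod_cast hMc
      have h2 := Real.log_le_log (by linarith) h1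
      rw [Real.log_pow, Real.log_pow] at h2
      exact_mod_cast h2
    have hkR : (k : ℝ) ≤ n := by
      refine hkρ.trans ((mul_le_mul_of_nonneg_left hlogM (Nat.cast_nonneg ρ)).trans hlen)
    have hkn : k ≤ n := by exact_mod_cast hkR
    have h : k * n ≤ n ^ 2 := by
      rw [pow_two]
      exact Nat.mul_le_mul_right _ hkn
    have hkN : k ≤ n ^ 2 := hkn.trans hnN
    obtain ⟨e1, e2⟩ := PUB_est1 n (n ^ 2) w k k c (n ^ c + c) hn2 (by omega) hnN hw rfl hkN hkN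
    have hP : Prun (m (n ^ 2)) (Set.Icc 1 j) (p (n ^ 2)) ((n ^ 2) ^ c2 + c2) (subV f (n ^ 2) l h) := by
      apply hc2
      · refine e1.trans ((Nat.pow_le_pow_right (by omega) ?_).trans (Nat.le_add_right _ _))
        omega
      · refine PUB_mono (hSVS n w k (n ^ 2) l (n ^ c + c) ((n ^ 2) ^ (c + 5)) f h hf ?_) ?_
        · omega
        · rw [← pow_mul, mul_comm (c + 5) 8]
          exact Nat.le_add_right _ _
    have e3 := DPB_est (n ^ 2) w k l c c2 cc n ((n ^ 2) ^ c2 + c2) (n ^ 2) (M (n ^ 2)) (hn2.trans hnN) (by omega) e1 hnN rfl rfl hch hMc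
    have hG : 4 ≤ n ^ 2 := by
      calc 4 = 2 ^ 2 := by norm_num
        _ ≤ n ^ 2 := Nat.pow_le_pow_left hn2 2
    have hnum := DPB_num ε (p (n ^ 2)) (Real.log (M (n ^ 2))) (∑ r ∈ Finset.Icc l k, (l : ℝ) / (r : ℝ)) (harmonic j : ℝ) k n
      hε hε1 (DPB_har j hj) hlog0 hpM hsum h8 (Nat.cast_nonneg k) hkR
    obtain ⟨D, hD1, hD2, hD3⟩ := hOND n w (n ^ 2) k l j (m (n ^ 2)) ((n ^ 2) ^ c2 + c2) (n ^ 2) ((n ^ 2) ^ (c2 + c + cc + 7))
      (p (n ^ 2)) f h hl1 hlk (hch.trans (hMm _)) hG hP (by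
        have e4 : ((n ^ 2 : ℕ) : ℝ) = (n : ℝ) * n := by
          push_cast
          ring
        rw [e4]
        exact hnum) e3
    refine ⟨D, PUB_mono hD1 ?_, hD2, hD3⟩
    rw [← pow_mul, ← pow_mul]
    refine (Nat.pow_le_pow_right (by omega) ?_).trans (Nat.le_add_right _ _)
    omega

end Pool.Agent.VVO
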